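import Pool.Agent.H50.ODG.Targets

/-!
Row CG1 of the board odg_modules (`MP_397744_co`): images of polyhedra under isometries.
-/

set_option autoImplicit false

namespace Pool.Agent.H19.ODG

open Pool.Agent.H57.CP Pool.Agent.H39.TO Pool.Agent.H39.OD Pool.Agent.H50.ODG

theorem pf_CG1 (hCNG : T_CNG) : T_CG1 := by
  rintro K K' ⟨P, iP, iB, rk, b, hP, hF, h2, hd, hf, hi, rfl⟩ ⟨g, hg, rfl⟩
  obtain ⟨h3, h4, h5⟩ := hCNG P rk b g hg hF h2
  exact ⟨P, iP, iB, rk, fun x => g (b x), hP, h3, h4, hd, hf, hi, h5.symm⟩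

end Pool.Agent.H19.ODG
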