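import Pool.Agent.H50.ODG.Targets

/-!
Row CHA of the board odg_modules (`MP_397744_co`): distances.
-/

set_option autoImplicit false

namespace Pool.Agent.H19.ODG

open Pool.Agent.H57.CP Pool.Agent.H39.TO Pool.Agent.H39.OD Pool.Agent.H50.ODG

theorem mk_cm (x y : V4) : mk x y = mk y x := by
  unfold mk; ring

theorem refl_ap (a x : V4) (i : Fin 4) : (Pool.Agent.H57.CP.refl a x) i = x i + 2 * mk a x * a i := rfl

theorem mk_rl (y a x : V4) : mk y (Pool.Agent.H57.CP.refl a x) = mk y x + 2 * mk x a * mk y a := by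
  simp only [mk, refl_ap]; ring

theorem mk_lr (y a x : V4) : mk (Pool.Agent.H57.CP.refl a x) y = mk x y + 2 * mk x a * mk y a := by
  simp only [mk, refl_ap]; ring

theorem pf_CHA (hRFX : T_RFX) : T_CHA := by
  intro u v w x x' n0 n1 n2 h
  have r0 := (hRFX n0 h.u0).1
  have r1 := (hRFX n1 h.u1).1
  have r2 := (hRFX n2 h.u2).1
  have x2 := x.2.1
  have y2 := x'.2.1
  have c20 : mk n2 n0 = cn u := by rw [mk_cm, h.e02]
  have c21 : mk n2 n1 = cn v := by rw [mk_cm, h.e12]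
  have c10 : mk n1 n0 = cn w := by rw [mk_cm, h.e01]
  have k1 : mk x'.1 x.1 = mk x.1 x'.1 := mk_cm _ _
  unfold ch
  simp only [r0, r1, r2, mk_rl, mk_lr]
  simp only [h.u0, h.u1, h.e12, h.xa, h.xc, h.yb, h.yc, c20, c21, c10, k1, x2, y2]
  refine ⟨?_, ?_, ?_, ?_, ?_, ?_⟩ <;> ring

end Pool.Agent.H19.ODG
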