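import Pool.Agent.H50.ODG.Targets

/-!
Row KSY of the board odg_modules (`MP_397744_co`): the group acts by symmetries.
-/

set_option autoImplicit false

namespace Pool.Agent.H19.ODG

open Pool.Agent.H57.CP Pool.Agent.H39.TO Pool.Agent.H39.OD Pool.Agent.H50.ODG

theorem iso_one : IsIso (1 : Equiv.Perm H3) := fun _ _ => rfl

theorem iso_mul {g h : Equiv.Perm H3} (hg : IsIso g) (hh : IsIso h) : IsIso (g * h) := by
  intro x y
  rw [Equiv.Perm.mul_apply, Equiv.Perm.mul_apply, hg, hh]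

theorem iso_inv {g : Equiv.Perm H3} (hg : IsIso g) : IsIso g⁻¹ := by
  intro x y
  have := hg (g⁻¹ x) (g⁻¹ y)
  have ex : g (g⁻¹ x) = x := g.apply_symm_apply x
  have ey : g (g⁻¹ y) = y := g.apply_symm_apply y
  rw [ex, ey] at this
  exact this.symm

theorem iso_G3 {a b c : Equiv.Perm H3} (ha : IsIso a) (hb : IsIso b) (hc : IsIso c) (g : Equiv.Perm H3)
    (hg : g ∈ G3 a b c) : IsIso g := by
  unfold G3 at hg
  induction hg using Subgroup.closure_induction with
  | mem x hx =>
    rcases hx with rfl | rfl | rfl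
    · exact ha
    · exact hb
    · exact hc
  | one => exact iso_one
  | mul x y _ _ hx hy => exact iso_mul hx hy
  | inv x _ hx => exact iso_inv hx

theorem img_mul (g h : Equiv.Perm H3) (e : Set H3) : (g * h) '' e = g '' (h '' e) := by
  rw [Set.image_image]
  exact Set.image_congr fun x _ => by rw [Equiv.Perm.mul_apply]

theorem img_mul2 (g h : Equiv.Perm H3) (f : Set (Set H3)) :
    (Set.image (g * h)) '' f = (Set.image g) '' ((Set.image h) '' f) := by
  rw [Set.image_image]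
  exact Set.image_congr fun x _ => img_mul g h x

theorem img_inv (g : Equiv.Perm H3) (e : Set H3) : (g⁻¹ : Equiv.Perm H3) '' (g '' e) = e := by
  rw [← img_mul, inv_mul_cancel]
  simp

theorem img_inv2 (g : Equiv.Perm H3) (f : Set (Set H3)) :
    (Set.image (g⁻¹ : Equiv.Perm H3)) '' ((Set.image g) '' f) = f := by
  rw [← img_mul2, inv_mul_cancel]
  have : (Set.image ((1 : Equiv.Perm H3) : H3 → H3)) = id := by
    funext e; simp
  rw [this, Set.image_id]

theorem pf_KSY : T_KSY := by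
  intro v v' a b c ha hb hc g hg
  have kv : ∀ k ∈ G3 a b c, ∀ x, x ∈ (KA v v' a b c).V → k x ∈ (KA v v' a b c).V := by
    rintro k hk x ⟨h, hh, hx⟩
    refine ⟨k * h, mul_mem hk hh, ?_⟩
    rw [Equiv.Perm.mul_apply, Equiv.Perm.mul_apply]
    exact hx.imp (fun h => by rw [h]) fun h => by rw [h]
  have ke : ∀ k ∈ G3 a b c, ∀ e : Set H3, e ∈ (KA v v' a b c).E → k '' e ∈ (KA v v' a b c).E := by
    rintro k hk e ⟨h, hh, rfl⟩
    exact ⟨k * h, mul_mem hk hh, (img_mul k h _).symm⟩
  have kf : ∀ k ∈ G3 a b c, ∀ f : Set (Set H3), f ∈ (KA v v' a b c).F →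
      (Set.image k) '' f ∈ (KA v v' a b c).F := by
    rintro k hk f ⟨h, hh, rfl⟩
    exact ⟨k * h, mul_mem hk hh, (img_mul2 k h _).symm⟩
  have hi : g⁻¹ ∈ G3 a b c := inv_mem hg
  refine ⟨iso_G3 ha hb hc g hg, fun x => ⟨fun h => ?_, kv g hg x⟩, fun e => ⟨fun h => ?_, ke g hg e⟩,
    fun f => ⟨fun h => ?_, kf g hg f⟩⟩
  · have := kv _ hi _ h
    have ex : (g⁻¹ : Equiv.Perm H3) (g x) = x := g.symm_apply_apply x
    rwa [ex] at this
  · have := ke _ hi _ h
    rwa [img_inv] at this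
  · have := kf _ hi _ h
    rwa [img_inv2] at this

end Pool.Agent.H19.ODG
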