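import Pool.Agent.H50.ODG.Targets

/-!
Row LIP of the board odg_modules (`MP_397744_co`): linear independence of three normals.
-/

set_option autoImplicit false

namespace Pool.Agent.H19.ODG

open Pool.Agent.H57.CP Pool.Agent.H39.TO Pool.Agent.H39.OD Pool.Agent.H50.ODG

theorem mk_lin3 (y l m n : V4) (a b c : ℝ) :
    mk y (a • l + (b • m + c • n)) = a * mk y l + b * mk y m + c * mk y n := by
  simp only [mk, Pi.add_apply, Pi.smul_apply, smul_eq_mul]; ring

theorem mk_zero_r (y : V4) : mk y 0 = 0 := by
  simp [mk]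

theorem pf_LIP : T_LIP := by
  intro X l m n hl hm hlt hXl hXm hXn
  rw [Fintype.linearIndependent_iff]
  intro g hg
  simp only [Fin.sum_univ_succ, Fin.sum_univ_zero, add_zero, Matrix.cons_val_zero, Matrix.cons_val_succ] at hg
  have e := fun y : V4 => mk_lin3 y l m n (g 0) (g (Fin.succ 0)) (g (Fin.succ (Fin.succ 0)))
  rw [hg] at e
  have hml : mk m l = mk l m := by unfold mk; ring
  have eX := e X
  have el := e l
  have em := e m
  rw [mk_zero_r] at eX el em
  rw [hXl, hXm] at eX
  have c0 : g (Fin.succ (Fin.succ 0)) = 0 := by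
    have : g (Fin.succ (Fin.succ 0)) * mk X n = 0 := by linarith
    exact (mul_eq_zero.1 this).resolve_right hXn
  rw [c0, hl] at el
  rw [c0, hm, hml] at em
  have a0 : g 0 * (1 - (mk l m) ^ 2) = 0 := by
    have hb : g (Fin.succ 0) = g 0 * mk l m := by linarith
    rw [hb] at el
    linarith
  have a1 : g 0 = 0 := (mul_eq_zero.1 a0).resolve_right (by linarith)
  have b1 : g (Fin.succ 0) = 0 := by
    rw [a1] at em; linarith
  intro i
  fin_cases i
  · exact a1
  · exact b1
  · exact c0

end Pool.Agent.H19.ODG
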