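import Pool.Agent.H50.ODG.Targets

/-!
Row PO1 of the board odg_modules (`MP_397744_co`): the polyhedra of the parameters.
-/

set_option autoImplicit false

namespace Pool.Agent.H19.ODG

open Pool.Agent.H57.CP Pool.Agent.H39.TO Pool.Agent.H39.OD Pool.Agent.H50.ODG

theorem pf_PO1 (hPAS : T_PAS) (hPTW : T_PTW) (hAEB : T_AEB) (hORA : T_ORA) (hGEL : T_GEL) (hMDQ : T_MDQ)
    (hFMB : T_FMB) (hNSK : T_NSK) (hVIN : T_VIN) : T_PO1 := by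
  intro u v w α β hP
  obtain ⟨u0, u1, v0, v1, w0, w1, hL⟩ := hGEL u v w α β hP
  obtain ⟨hCf, -⟩ := hMDQ u v w α β u0 u1 v0 v1 hP.a0 hP.a1 hP.b0 hP.b1 hL
  have hfam : Fam0 u v w ∨ Fam1 u v w ∨ Fam2 u v w := by
    rcases hP.fam with h | h | h
    · exact Or.inl h
    · exact Or.inr (Or.inl h.1)
    · exact Or.inr (Or.inr h.1)
  obtain ⟨-, -, -, ou, ov, -⟩ := hFMB u v w hfam
  have hS := hPAS u v w α β hP
  obtain ⟨hFS, hDG⟩ := hORA u v w _ _ _ _ _ hCf u0 u1 v0 v1 w0 w1 hS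
  refine ⟨hAEB _ _ _ _ _ hS, hPTW u v w α β hP, ?_, ?_, ?_⟩
  · intro n hn
    have hn' : n ∈ ({(u.den : ℕ∞), (v.den : ℕ∞)} : Set ℕ∞) := by rw [← hDG]; exact hn
    rcases hn' with h | h
    · exact ⟨u.den, ou, h⟩
    · exact ⟨v.den, ov, h⟩
  · intro n hn
    have hn' : n ∈ ({2 * (w.den : ℕ∞)} : Set ℕ∞) := by rw [← hFS]; exact hn
    have h : n = 2 * (w.den : ℕ∞) := hn'
    have h' : n = ((2 * w.den : ℕ) : ℕ∞) := by rw [h]; push_cast; rfl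
    rw [h']
    exact ENat.natCast_ne_top _
  · exact hVIN _ _ _ _ _ hCf.u0 hCf.u1 hCf.u2 (hNSK u v w _ _ _ _ _ hCf u0 v0 w0 hP.sum)

end Pool.Agent.H19.ODG
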