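import Pool.Agent.H50.ODG.Targets

/-!
Row SF1 of the board odg_modules (`MP_397744_co`): set form.
-/

set_option autoImplicit false

namespace Pool.Agent.H19.ODG

open Pool.Agent.H57.CP Pool.Agent.H39.TO Pool.Agent.H39.OD Pool.Agent.H50.ODG

theorem pf_SF1 (hLA : T_LA) (hLBT : T_LBT) (hLCT : T_LCT) (hLD : T_LD) (hLET : T_LET) (hKOF : T_KOF) : T_SF1 := by
  intro K
  constructor
  · rintro ⟨P, iP, iB, rk, b, hP, hF, h2, hd, hf, hi, rfl⟩
    obtain ⟨eF, eD⟩ := hLCT P rk b hP hF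
    refine ⟨hLA P rk b hP hF, hLBT P rk b hP hF h2, ?_, ?_, ?_⟩
    · intro n hn
      rw [eD] at hn
      obtain ⟨x, hx, hn⟩ := hn
      obtain ⟨m, hm, hm'⟩ := hd x hx
      exact ⟨m, hm, by rw [← hn, hm']⟩
    · intro n hn
      rw [eF] at hn
      obtain ⟨f, hf', hn⟩ := hn
      rw [← hn]
      exact Set.encard_ne_top_iff.2 (hf f hf')
    · exact hi.image fun x hx y hy h => hF.inj0 x y hx hy h
  · intro h
    obtain ⟨hP, hF⟩ := hLD K h.geo
    obtain ⟨h2, eF, eD⟩ := hLET K h.geo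
    refine ⟨Cell K, inferInstance, inferInstance, Cell.rk, Cell.real o, hP, hF, h2 h.two, ?_, ?_, ?_,
      (hKOF K h.geo).symm⟩
    · intro x hx
      have hm : {e : Cell K | Cell.rk e = 1 ∧ x < e}.encard ∈ DG K := by
        rw [← eD]
        exact ⟨x, hx, rfl⟩
      obtain ⟨m, hm1, hm2⟩ := h.dg _ hm
      exact ⟨m, hm1, hm2⟩
    · intro f hf
      have hm : {x : Cell K | Cell.rk x = 0 ∧ x < f}.encard ∈ FS K := by
        rw [← eF]
        exact ⟨f, hf, rfl⟩
      exact Set.encard_ne_top_iff.1 (h.fs _ hm)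
    · have hV : (Kof (Cell.rk (K := K)) (Cell.real o)).V.Infinite := by
        rw [hKOF K h.geo]
        exact h.inf
      exact Set.Infinite.of_image _ hV

end Pool.Agent.H19.ODG
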