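import Pool.Agent.H50.ODG.Targets

/-!
Row TRI of the board odg_modules (`MP_397744_co`): a criterion for the sum of three angles.
-/

set_option autoImplicit false

namespace Pool.Agent.H19.ODG

open Pool.Agent.H57.CP Pool.Agent.H39.TO Pool.Agent.H39.OD Pool.Agent.H50.ODG

theorem tri_aux (a b c : ℝ) (ha : 0 < a) (ha' : a < Real.pi) (hb : 0 < b) (hb' : b < Real.pi) (hc : 0 < c)
    (hc' : c < Real.pi) (h : Real.sin a * Real.sin b ≤ Real.cos c + Real.cos a * Real.cos b) :
    a + b + c ≤ Real.pi ∨ c ≤ a + b - Real.pi := by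
  have h1 : -Real.cos (a + b) ≤ Real.cos c := by rw [Real.cos_add]; linarith
  rcases le_or_gt (a + b) Real.pi with h2 | h2
  · left
    have h3 : Real.cos (Real.pi - (a + b)) ≤ Real.cos c := by rw [Real.cos_pi_sub]; exact h1
    have h4 : c ≤ Real.pi - (a + b) := by
      by_contra h5
      push Not at h5
      have := Real.cos_lt_cos_of_nonneg_of_le_pi (by linarith) hc'.le h5
      linarith
    linarith
  · right
    have h3 : Real.cos (a + b - Real.pi) ≤ Real.cos c := by rw [Real.cos_sub_pi]; exact h1
    by_contra h5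
    push Not at h5
    have := Real.cos_lt_cos_of_nonneg_of_le_pi (by linarith) hc'.le h5
    linarith

theorem pf_TRI : T_TRI := by
  intro a b c ha ha' hb hb' hc hc' h1 h2 h3
  rcases tri_aux a b c ha ha' hb hb' hc hc' h1 with h | h
  · exact h
  rcases tri_aux b c a hb hb' hc hc' ha ha' h2 with h' | h'
  · linarith
  exfalso
  linarith

end Pool.Agent.H19.ODG
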