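import Pool.Agent.H50.ODG.Targets

/-!
Row UNC of the board odg_modules (`MP_397744_co`): two angles are determined up to the common exchange with the
supplements.
-/

set_option autoImplicit false

namespace Pool.Agent.H19.ODG

open Pool.Agent.H57.CP Pool.Agent.H39.TO Pool.Agent.H39.OD Pool.Agent.H50.ODG

theorem sin_eq_two (a a' : ℝ) (ha : 0 < a) (ha' : a < Real.pi) (hb : 0 < a') (hb' : a' < Real.pi)
    (h : Real.sin a = Real.sin a') : a' = a ∨ a' = Real.pi - a := by
  have h1 : Real.cos a ^ 2 = Real.cos a' ^ 2 := by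
    have e1 := Real.sin_sq_add_cos_sq a
    have e2 := Real.sin_sq_add_cos_sq a'
    rw [h] at e1
    linarith
  rcases sq_eq_sq_iff_eq_or_eq_neg.1 h1 with h2 | h2
  · left
    exact (Real.injOn_cos ⟨ha.le, ha'.le⟩ ⟨hb.le, hb'.le⟩ h2).symm
  · right
    refine Real.injOn_cos ⟨hb.le, hb'.le⟩ ⟨by linarith, by linarith⟩ ?_
    rw [Real.cos_pi_sub, h2, neg_neg]

theorem cos_zero_half (a : ℝ) (ha : 0 < a) (ha' : a < Real.pi) (h : Real.cos a = 0) : a = Real.pi / 2 := by
  refine Real.injOn_cos ⟨ha.le, ha'.le⟩ ⟨by linarith, by linarith⟩ ?_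
  rw [h, Real.cos_pi_div_two]

theorem pf_UNC : T_UNC := by
  intro a b a' b' ha1 ha2 hb1 hb2 ha1' ha2' hb1' hb2' hsa hsb hc
  rcases sin_eq_two a a' ha1 ha2 ha1' ha2' hsa with rfl | rfl
  · rcases sin_eq_two b b' hb1 hb2 hb1' hb2' hsb with rfl | rfl
    · exact Or.inl ⟨rfl, rfl⟩
    · rw [Real.cos_pi_sub] at hc
      have h0 : Real.cos a' * Real.cos b = 0 := by linarith
      rcases mul_eq_zero.1 h0 with h0 | h0
      · right
        have := cos_zero_half a' ha1 ha2 h0
        exact ⟨by linarith, rfl⟩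
      · left
        have := cos_zero_half b hb1 hb2 h0
        exact ⟨rfl, by linarith⟩
  · rcases sin_eq_two b b' hb1 hb2 hb1' hb2' hsb with rfl | rfl
    · rw [Real.cos_pi_sub] at hc
      have h0 : Real.cos a * Real.cos b' = 0 := by linarith
      rcases mul_eq_zero.1 h0 with h0 | h0
      · left
        have := cos_zero_half a ha1 ha2 h0
        exact ⟨by linarith, rfl⟩
      · right
        have := cos_zero_half b' hb1 hb2 h0
        exact ⟨rfl, by linarith⟩
    · exact Or.inr ⟨rfl, rfl⟩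

end Pool.Agent.H19.ODG
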